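import Mathlib
import Pool.Agent.J4H90.LI.Fin

/-! # Nonlinear oscillators: the mean number of closed orbits over the damping parameter

The polynomial systems `x' = y`, `y' = - x - y (Q(x, y) + μ)`, that is `x'' + (Q(x, x') + μ) x' + x = 0`,
with `Q` of degree at most `n` and the constant damping `μ` as the only parameter. -/

open Set MeasureTheory
open scoped ENNReal

namespace Pool.Agent.Results.MP_95e7ec_an.OscillatorMean

/-- The value of a polynomial at a point of the plane. -/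
noncomputable def val (Q : MvPolynomial (Fin 2) ℝ) (p : ℝ × ℝ) : ℝ :=
  MvPolynomial.eval ![p.1, p.2] Q

/-- The polynomial vector field `(y, - x - y (Q(x, y) + μ))`; its orbits are those of the equation
`x'' + (Q(x, x') + μ) x' + x = 0`. -/
noncomputable def oscillator (Q : MvPolynomial (Fin 2) ℝ) (μ : ℝ) (p : ℝ × ℝ) : ℝ × ℝ :=
  (p.2, - p.1 - p.2 * (val Q p + μ))

/-- The polynomial vector field `(y, - x - y (f(x) + μ))`; its orbits are those of the Liénard
equation `x'' + (f(x) + μ) x' + x = 0`. -/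
noncomputable def lienard (f : Polynomial ℝ) (μ : ℝ) (p : ℝ × ℝ) : ℝ × ℝ :=
  (p.2, - p.1 - p.2 * (f.eval p.1 + μ))

/-- The set of the closed orbits (the images of the nonconstant periodic solutions) of the vector
field `X` which are contained in `A`. -/
def closedOrbitsIn (X : ℝ × ℝ → ℝ × ℝ) (A : Set (ℝ × ℝ)) : Set (Set (ℝ × ℝ)) :=
  {C | (∃ γ : ℝ → ℝ × ℝ, ∃ T : ℝ, 0 < T ∧ (∀ t : ℝ, HasDerivAt γ (X (γ t)) t) ∧
    (∀ t : ℝ, γ (t + T) = γ t) ∧ (∃ a b : ℝ, γ a ≠ γ b) ∧ C = range γ) ∧ C ⊆ A}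

/-- The mean of the number of closed orbits in `A` of the vector fields `X μ` over the interval
`[-M, -m]` is at most `((2 + W) / (2 - W)) ^ 2 * n / 2`, `W = M - m`, and there are no closed orbits
in `A` for the other `μ`. -/
def MeanBound (X : ℝ → ℝ × ℝ → ℝ × ℝ) (A : Set (ℝ × ℝ)) (n : ℕ) (m M : ℝ) : Prop :=
  (∀ μ ∉ Icc (-M) (-m), closedOrbitsIn (X μ) A = ∅) ∧
  ∃ G : ℝ → ℝ≥0∞, Measurable G ∧
    (∀ μ, ((closedOrbitsIn (X μ) A).encard : ℝ≥0∞) ≤ G μ) ∧
    2 * ∫⁻ μ, G μ ≤
      ENNReal.ofReal (((2 + (M - m)) / (2 - (M - m))) ^ 2) * (n * ENNReal.ofReal (M - m))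

/-- **Oscillators: the mean number of closed orbits over the damping parameter.**

(i) Let `Q` be a polynomial of degree at most `n` in two variables and let `A` be a set which meets
every open ray from the origin in an interval, such that `m ≤ Q ≤ M` on `A`, and let
`W = M - m < 2`. Then `x' = y`, `y' = - x - y (Q(x, y) + μ)` has no closed orbit in `A` unless
`- M ≤ μ ≤ - m`, and the number of its closed orbits in `A` has a measurable majorant `G` with
`∫ G ≤ ((2 + W) / (2 - W)) ^ 2 (n / 2) W`.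

(ii) In particular, this holds for the Liénard equation `x'' + (f(x) + μ) x' + x = 0`, `f` a
polynomial of degree at most `n` with `m ≤ f ≤ M` on `[-b, b]`, and its closed orbits in the strip
`- b ≤ x ≤ b`.

(iii) The constant `n / 2` is attained for every even `n = 2 k` and every `W = 2 ε > 0`: for all
`R, ε > 0` there is `Q` of degree at most `2 k` with `- ε ≤ Q ≤ ε` on the disc of radius `R` for
which there are at least `k` closed orbits in this disc for every `μ` with `- ε < μ < ε`. -/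
theorem result :
    (∀ (n : ℕ) (Q : MvPolynomial (Fin 2) ℝ), Q.totalDegree ≤ n →
      ∀ (A : Set (ℝ × ℝ)) (m M : ℝ),
        (∀ t : ℝ, {r : ℝ | 0 < r ∧ (r * Real.cos t, r * Real.sin t) ∈ A}.OrdConnected) →
        (∀ p ∈ A, m ≤ val Q p ∧ val Q p ≤ M) → m ≤ M → M - m < 2 →
        MeanBound (oscillator Q) A n m M) ∧
    (∀ (n : ℕ) (f : Polynomial ℝ), f.natDegree ≤ n → ∀ b m M : ℝ,
        (∀ x : ℝ, |x| ≤ b → m ≤ f.eval x ∧ f.eval x ≤ M) → m ≤ M → M - m < 2 →
        MeanBound (lienard f) {p | |p.1| ≤ b} n m M) ∧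
    (∀ k : ℕ, 1 ≤ k → ∀ R ε : ℝ, 0 < R → 0 < ε → ∃ Q : MvPolynomial (Fin 2) ℝ,
      Q.totalDegree ≤ 2 * k ∧
      (∀ p : ℝ × ℝ, p.1 ^ 2 + p.2 ^ 2 ≤ R ^ 2 → -ε ≤ val Q p ∧ val Q p ≤ ε) ∧
      ∀ μ ∈ Ioo (-ε) ε,
        (k : ℕ∞) ≤ (closedOrbitsIn (oscillator Q μ) {p | p.1 ^ 2 + p.2 ^ 2 ≤ R ^ 2}).encard) := by
  have key : ∀ (n : ℕ) (Q : MvPolynomial (Fin 2) ℝ), Q.totalDegree ≤ n →
      ∀ (A : Set (ℝ × ℝ)) (m M : ℝ),
        (∀ t : ℝ, {r : ℝ | 0 < r ∧ (r * Real.cos t, r * Real.sin t) ∈ A}.OrdConnected) →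
        (∀ p ∈ A, m ≤ val Q p ∧ val Q p ≤ M) → m ≤ M → M - m < 2 →
        MeanBound (oscillator Q) A n m M :=
    fun n Q hQ A m M hA hmM hle hW => J4H90.LI.osc_mean' hQ hA hmM hle hW
  refine ⟨key, fun n f hf b m M hmM hle hW => ?_, fun k hk R ε hR hε => ?_⟩
  · set Q : MvPolynomial (Fin 2) ℝ := Polynomial.aeval (MvPolynomial.X 0) f with hQ
    have hval : ∀ p, val Q p = f.eval p.1 := by
      intro p
      unfold val
      rw [hQ, Polynomial.aeval_eq_sum_range, Polynomial.eval_eq_sum_range, map_sum]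
      exact Finset.sum_congr rfl fun i _ => by simp
    have hosc : oscillator Q = lienard f := by
      funext μ p
      unfold oscillator lienard
      rw [hval]
    have hdeg : Q.totalDegree ≤ n := by
      rw [hQ, Polynomial.aeval_eq_sum_range]
      refine MvPolynomial.totalDegree_finsetSum_le fun i hi => ?_
      refine (MvPolynomial.totalDegree_smul_le _ _).trans ?_
      refine (MvPolynomial.totalDegree_pow _ _).trans ?_
      rw [MvPolynomial.totalDegree_X, mul_one]
      exact (Nat.lt_succ_iff.1 (Finset.mem_range.1 hi)).trans hf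
    rw [← hosc]
    refine key n Q hdeg _ m M (fun t => ?_) (fun p hp => ?_) hle hW
    · refine ⟨fun x hx y hy z hz => ?_⟩
      have hz0 : 0 < z := hx.1.trans_le hz.1
      refine ⟨hz0, ?_⟩
      have h1 : |y * Real.cos t| ≤ b := hy.2
      show |z * Real.cos t| ≤ b
      refine le_trans ?_ h1
      rw [abs_mul, abs_mul, abs_of_pos hz0, abs_of_pos hy.1]
      exact mul_le_mul_of_nonneg_right hz.2 (abs_nonneg _)
    · rw [hval]
      exact hmM p.1 hp
  · exact J4H90.LI.osc_sharp hk hR hε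

end Pool.Agent.Results.MP_95e7ec_an.OscillatorMean
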